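import Pool.Agent.Helper50.BL.Stmts
import Pool.Agent.Helper50.BL.Base

/-!
# Module D3: the middle range of a dyadic sum

Each nonzero term equals `z / a`, and the levels `l` with `b 2^l ≤ z < a 2^l` lie in an interval of
`N + 1` integers.
-/

namespace Pool.Agent.Helper50.BL

open Finset
open scoped Classical

/-- at most `N + 1` levels -/
theorem d3_card (a b z : ℝ) (N : ℕ) (G : Finset ℤ) (hb : 0 < b) (hab : a ≤ 2 ^ N * b) :
    (#(G.filter (fun l => b * (2 : ℝ) ^ l ≤ z ∧ z < a * (2 : ℝ) ^ l)) : ℝ) ≤ N + 1 := by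
  have key : #(G.filter (fun l => b * (2 : ℝ) ^ l ≤ z ∧ z < a * (2 : ℝ) ^ l)) ≤ N + 1 := by
    rcases (G.filter (fun l => b * (2 : ℝ) ^ l ≤ z ∧ z < a * (2 : ℝ) ^ l)).eq_empty_or_nonempty
      with h | h
    · rw [h]
      simp
    · obtain ⟨l0, hl0, hmin⟩ := Finset.exists_min_image _ (fun l : ℤ => l) h
      have hsub : G.filter (fun l => b * (2 : ℝ) ^ l ≤ z ∧ z < a * (2 : ℝ) ^ l)
          ⊆ Finset.Icc l0 (l0 + N) := by
        intro l hl
        rw [Finset.mem_Icc]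
        refine ⟨hmin l hl, ?_⟩
        by_contra hc
        push Not at hc
        have h1 := (Finset.mem_filter.1 hl0).2.2
        have h2 := (Finset.mem_filter.1 hl).2.1
        have h3 : (2 : ℝ) ^ (l0 + (N : ℤ)) ≤ (2 : ℝ) ^ l :=
          zpow_le_zpow_right₀ (by norm_num) hc.le
        have h4 : (2 : ℝ) ^ (l0 + (N : ℤ)) = (2 : ℝ) ^ l0 * 2 ^ N := by
          rw [zpow_add₀ (by norm_num), zpow_natCast]
        have h5 : a * (2 : ℝ) ^ l0 ≤ (2 ^ N * b) * (2 : ℝ) ^ l0 :=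
          mul_le_mul_of_nonneg_right hab (by positivity)
        have h6 : b * (2 : ℝ) ^ (l0 + (N : ℤ)) ≤ b * (2 : ℝ) ^ l :=
          mul_le_mul_of_nonneg_left h3 hb.le
        rw [h4] at h6
        nlinarith
      have h7 := Finset.card_le_card hsub
      rw [Int.card_Icc] at h7
      have h8 : (l0 + (N : ℤ) + 1 - l0).toNat = N + 1 := by omega
      rw [h8] at h7
      exact h7
  exact_mod_cast key

theorem st_D3 : ST_D3 := by
  intro a b z N G hb hba hab hz
  have ha : 0 < a := lt_of_lt_of_le hb hba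
  have h1 : ∀ l ∈ G, (2 : ℝ) ^ l * (if b * (2 : ℝ) ^ l ≤ z ∧ z < a * (2 : ℝ) ^ l
      then z / (a * (2 : ℝ) ^ l) else 0)
      = if b * (2 : ℝ) ^ l ≤ z ∧ z < a * (2 : ℝ) ^ l then z / a else 0 := by
    intro l _
    have h2 : (2 : ℝ) ^ l ≠ 0 := by positivity
    split_ifs
    · field_simp
    · rw [mul_zero]
  rw [Finset.sum_congr rfl h1, ← Finset.sum_filter, Finset.sum_const, nsmul_eq_mul]
  have h3 : (0 : ℝ) ≤ z / a := div_nonneg hz ha.le
  have h4 := mul_le_mul_of_nonneg_right (d3_card a b z N G hb hab) h3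
  calc _ ≤ ((N : ℝ) + 1) * (z / a) := h4
    _ = (N + 1) * z / a := by ring

end Pool.Agent.Helper50.BL
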